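import Pool.Agent.Q28.PV.Defs

/-!
# Projectors onto single degrees of the cohomology: definitions
-/

open CategoryTheory AlgebraicGeometry

universe u v w

namespace Pool.Agent.Q28.EN

open Pool.Agent.H914 Pool.Agent.H914.VarClass Pool.Agent.H914.VarClass.Obj Pool.Agent.W492.BB
  Pool.Agent.W550.Corr Pool.Agent.TH133 Pool.Agent.Q28.PV

variable {k : Type u} [Field k] {𝒱 : VarClass k} {C : TheoryData.{u, v, 0} 𝒱 ℚ} {K : Type w}
  [Field K] (H : WeilTheoryData.{u, v, w} C K)

/-- The correspondence `q` is a projector of `X` onto `H^n(X)`: an idempotent of degree zero which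
acts as the identity on `H^n(X)` and as zero on `H^m(X)` for `m ≠ n`. -/
structure ProjectsTo (X : 𝒱.Obj) (n : ℕ) (q : C.A (X.prod X)) : Prop where
  deg : C.Deg X.dim q
  idem : C.comp q q = q
  act : ∀ (m : ℤ) (a : H.A X), H.Deg m a → H.act (H.cl q) a = if m = n then a else 0

/-- Projectors `q i`, `i < N`, of `X` onto pairwise different degrees `e i` of the cohomology, which
are orthogonal on one side: `q j ∘ q i = 0` for `i < j`. (`C.comp` composes in the order of
application.) -/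
structure OrderedProjectors (X : 𝒱.Obj) (N : ℕ) (e : ℕ → ℕ) (q : ℕ → C.A (X.prod X)) : Prop where
  le : ∀ i < N, e i ≤ 2 * X.dim
  inj : ∀ i < N, ∀ j < N, e i = e j → i = j
  proj : ∀ i < N, ProjectsTo H X (e i) (q i)
  oneSided : ∀ i j, i < j → j < N → C.comp (q i) (q j) = 0

/-- Murre: `X` has a projector onto `H^1(X)` which factors through a curve `T`. It is the composition
of `α ∈ CH^(dim X)(X × T)` and of a divisor class `D` on `T × X`. -/
def HasPicardProjector (X : 𝒱.Obj) : Prop :=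
  ∃ (T : 𝒱.Obj) (α : C.A (X.prod T)) (D : C.A (T.prod X)), T.dim = 1 ∧ C.Deg X.dim α ∧
    C.Deg 1 D ∧ ProjectsTo H X 1 (C.comp α D)

/-- Homologically trivial divisor classes on `T × X`, `T` a curve, are sums of pull-backs of divisor
classes on `T` and on `X`: `Pic^0(T × X) = Pic^0(T) × Pic^0(X)`. -/
def SplitPicard (X : 𝒱.Obj) : Prop :=
  ∀ (T : 𝒱.Obj) (δ : C.A (T.prod X)), T.dim = 1 → HomTriv H (T.prod X) 1 δ →
    ∃ (b : C.A T) (c : C.A X), C.Deg 1 b ∧ C.Deg 1 c ∧ δ = C.ext b 1 + C.ext 1 c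

/-- Homologically trivial divisor classes on a product `Y × Z` are sums of pull-backs of divisor
classes on `Y` and on `Z`: `Pic^0(Y × Z) = Pic^0(Y) × Pic^0(Z)`. -/
def SplitDivisors (Y Z : 𝒱.Obj) : Prop :=
  ∀ δ : C.A (Y.prod Z), HomTriv H (Y.prod Z) 1 δ →
    ∃ (b : C.A Y) (c : C.A Z), C.Deg 1 b ∧ C.Deg 1 c ∧ δ = C.ext b 1 + C.ext 1 c

/-- The correspondence `q` of degree zero factors through the variety `Y`: `q = β ∘ α` with
`α ∈ CH^(dim X)(X × Y)` and `β ∈ CH^(dim Y)(Y × X)`. For a projector `q` this says that `(X, q)` is a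
direct summand of the motive of `Y`. -/
def FactorsThrough (C : TheoryData.{u, v, 0} 𝒱 ℚ) {X : 𝒱.Obj} (q : C.A (X.prod X)) (Y : 𝒱.Obj) :
    Prop :=
  ∃ (α : C.A (X.prod Y)) (β : C.A (Y.prod X)), C.Deg X.dim α ∧ C.Deg Y.dim β ∧ q = C.comp α β

end Pool.Agent.Q28.EN
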