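import Pool.Agent.Q28.EN.Defs
import Pool.Agent.Q28.HD.Basic
import Pool.Agent.Q28.GL.Core
import Pool.Agent.Q28.MS.Summand

/-!
# No raising morphisms from `h^0` and `h^1`
-/

open CategoryTheory AlgebraicGeometry

universe u v w

namespace Pool.Agent.Q28.EN

open Pool.Agent.H914 Pool.Agent.H914.VarClass Pool.Agent.H914.VarClass.Obj Pool.Agent.W492.BB
  Pool.Agent.W550.Corr Pool.Agent.TH133 Pool.Agent.Q28.PV Pool.Agent.Q28.HD

set_option linter.unusedSectionVars false

variable {k : Type u} [Field k] {𝒱 : VarClass k}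

variable {C : TheoryData.{u, v, 0} 𝒱 ℚ} [hC : IsChowProj C] {K : Type w} [Field K]
  {H : WeilTheoryData.{u, v, w} C K} [hH : IsWeilProj H] {X Y Z W : 𝒱.Obj}

include hC hH

lemma eq_zero_of_cl {r : ℚ} (h : H.cl (r • (1 : C.A X)) = 0) : r = 0 := by
  by_contra hq
  apply hH.one_ne_zero X
  have h3 : H.cl (r⁻¹ • (r • (1 : C.A X))) = 0 := GL.cl_smul_zero h r⁻¹
  rwa [smul_smul, inv_mul_cancel₀ hq, one_smul, map_one] at h3

/-- A correspondence of degree zero which kills `H^0` kills `CH^0`. -/
lemma act_one {q : C.A (X.prod X)} (hq : C.Deg X.dim q) (h0 : H.act (H.cl q) 1 = 0) :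
    C.act q 1 = 0 := by
  have h1 : C.act q 1 ∈ C.gr X 0 := act_mem0 C hq (C.one_mem X)
  obtain ⟨r, hr⟩ := hC.gr_zero X _ h1
  have h2 : H.cl (C.act q 1) = 0 := by rw [cl_act, map_one, h0]
  rw [hr] at h2
  rw [hr, eq_zero_of_cl h2, zero_smul]

omit hC hH in
lemma ext_zero' (a : C.A X) : C.ext a (0 : C.A Y) = 0 := by
  rw [TheoryData.ext, map_zero, mul_zero]

omit hC hH in
lemma zero_ext' (b : C.A Y) : C.ext (0 : C.A X) b = 0 := by
  rw [TheoryData.ext, map_zero, zero_mul]

/-- No morphisms from `h^0`. -/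
lemma comp_point {q : C.A (X.prod X)} (hq : C.Deg X.dim q) (h0 : H.act (H.cl q) 1 = 0)
    (x : C.A X) : C.comp (C.ext x 1) q = 0 := by
  rw [comp_ext_left, act_one hq h0, ext_zero']

lemma cl_comp_eq_zero {n : ℕ} {p q : C.A (X.prod X)} (hp : ProjectsTo H X n p)
    (hq : ∀ a, H.Deg n a → H.act (H.cl q) a = 0) : H.cl (C.comp p q) = 0 := by
  apply hom_zero_of_act (H := H)
  have key : H.toTheoryData.actL (H.cl (C.comp p q)) = 0 := by
    apply ext_gr H
    intro m a ha
    change H.act (H.cl (C.comp p q)) a = 0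
    rw [cl_comp, H.toTheoryData.act_comp]
    rw [hp.act m a ha]
    split_ifs with hm
    · subst hm; exact hq a ha
    · exact map_zero (H.toTheoryData.actL (H.cl q))
  intro a
  exact LinearMap.congr_fun key a

/-- The transpose of a projector onto `H^n` is a projector onto `H^(2 dim X - n)`. -/
lemma ProjectsTo.tp {n : ℕ} (hn : n ≤ 2 * X.dim) {q : C.A (X.prod X)} (h : ProjectsTo H X n q) :
    ProjectsTo H X (2 * X.dim - n) (tp C q) where
  deg := tp_mem C h.deg
  idem := by rw [← tp_comp C (ch_comm C), h.idem]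
  act := by
    intro m b hb
    rw [← sub_eq_zero]
    apply H.nondeg
    have h5 : H.tr X ∘ₗ LinearMap.mulLeft K (H.act (H.cl (TH133.tp C q)) b) =
        H.tr X ∘ₗ LinearMap.mulLeft K (if m = (2 * X.dim - n : ℕ) then b else 0) := by
      apply ext_gr H
      intro l a ha
      rw [LinearMap.comp_apply, LinearMap.comp_apply, LinearMap.mulLeft_apply,
        LinearMap.mulLeft_apply, tr_act' H, h.act l a ha]
      by_cases hm : m = (2 * X.dim - n : ℕ)
      · rw [if_pos hm]
        split_ifs with hl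
        · rfl
        · rw [mul_zero, map_zero]
          exact (tr_zero H (H.mul_mem hb ha) (by omega)).symm
      · rw [if_neg hm, zero_mul, map_zero]
        split_ifs with hl
        · exact tr_zero H (H.mul_mem hb ha) (by omega)
        · rw [mul_zero, map_zero]
    intro a
    have h6 := LinearMap.congr_fun h5 a
    rw [LinearMap.comp_apply, LinearMap.comp_apply, LinearMap.mulLeft_apply,
      LinearMap.mulLeft_apply] at h6
    rw [sub_mul, map_sub, h6, sub_self]

/-- No raising morphisms from `h^1`. -/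
lemma comp_picard (hS : SplitPicard H X) {T : 𝒱.Obj} {α : C.A (X.prod T)} {D : C.A (T.prod X)}
    (hT : T.dim = 1) (hα : C.Deg X.dim α) (hD : C.Deg 1 D) (hp : ProjectsTo H X 1 (C.comp α D))
    {q : C.A (X.prod X)} (hq : C.Deg X.dim q) (hqq : C.comp q q = q)
    (h0 : H.act (H.cl q) 1 = 0) (h1 : ∀ a, H.Deg 1 a → H.act (H.cl q) a = 0) :
    C.comp (C.comp α D) q = 0 := by
  set p := C.comp α D with hpd
  set R := C.comp p q with hR
  have hRm : R ∈ C.gr (X.prod X) X.dim := by
    have h := comp_memI (C := C) hp.deg hq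
    rwa [add_sub_cancel_right] at h
  have hclR : H.cl R = 0 := cl_comp_eq_zero hp (by exact_mod_cast h1)
  obtain ⟨b, c, hb, hc, hδ⟩ := hS T (C.comp D R) hT ⟨by
    have h := comp_memI (C := C) hD hRm
    have e : (1 : ℤ) + X.dim - X.dim = (1 : ℕ) := by push_cast; ring
    rwa [e] at h, comp_cl0 D hclR⟩
  have hαδ : C.comp α (C.comp D R) = R := by
    rw [← comp_assoc, ← hpd, hR, ← comp_assoc, hp.idem]
  have hRq : C.comp R q = R := by rw [hR, comp_assoc, hqq]
  have hpR : C.comp p R = R := by rw [hR, ← comp_assoc, hp.idem]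
  set y := C.act (tp C α) b with hy
  set w := C.act (tp C α) (1 : C.A T) with hw
  have e1 : R = C.ext y 1 + C.ext w c := by
    rw [← hαδ, hδ, comp_add, comp_ext_right, comp_ext_right]
  have e2 : R = C.ext w (C.act q c) := by
    rw [← hRq]
    conv_lhs => rw [e1]
    rw [add_comp, comp_ext_left, comp_ext_left, act_one hq h0, ext_zero', zero_add]
  have e3 : R = C.ext (C.act (tp C p) w) (C.act q c) := by
    rw [← hpR]
    conv_lhs => rw [e2]
    rw [comp_ext_right]
  -- the class `w`
  have hwm : w ∈ C.gr X ((X.dim : ℤ) - 1) := by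
    have h := act_memI (C := C) (tp_mem C hα) (C.one_mem T)
    have e : (X.dim : ℤ) + 0 - T.dim = X.dim - 1 := by rw [hT]; push_cast; ring
    rwa [e] at h
  have hrm : C.act (tp C D) w ∈ C.gr T 0 := by
    have h := act_memI (C := C) (tp_mem C hD) hwm
    have e : (1 : ℤ) + (X.dim - 1) - X.dim = 0 := by ring
    rwa [e] at h
  obtain ⟨r, hr⟩ := hC.gr_zero T _ hrm
  have hpw : C.act (tp C p) w = r • w := by
    rw [hpd, tp_comp C (ch_comm C), C.act_comp, hr, act_map_smul]
  have hclpw : H.cl (r • w) = 0 := by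
    rw [← hpw, cl_act]
    rcases Nat.eq_zero_or_pos X.dim with h | h
    · have hw0 : w = 0 := by
        rw [h] at hwm
        have h2 := C.gr_neg X ((0 : ℕ) - 1 : ℤ) (by norm_num)
        rw [h2, Submodule.mem_bot] at hwm
        exact hwm
      rw [hw0, map_zero]
      exact map_zero (H.toTheoryData.actL _)
    · have h2 := (hp.tp (by omega)).act _ (H.cl w) (H.cl_mem hwm)
      rw [h2, if_neg (by omega)]
  have hr0 : r • w = 0 := by
    by_cases h : r = 0
    · rw [h, zero_smul]
    · exfalso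
      apply h
      have hclw : H.cl w = 0 := by
        have h3 : H.cl (r⁻¹ • (r • w)) = 0 := GL.cl_smul_zero hclpw r⁻¹
        rwa [smul_smul, inv_mul_cancel₀ h, one_smul] at h3
      apply eq_zero_of_cl (H := H) (X := T)
      rw [← hr, cl_act, hclw]
      exact map_zero (H.toTheoryData.actL (H.cl (tp C D)))
  rw [e3, hpw, hr0, zero_ext']

end Pool.Agent.Q28.EN
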