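import Pool.Agent.Q28.EN.Main

/-!
# Projectors which factor through varieties of small dimension
-/

open CategoryTheory AlgebraicGeometry

universe u v w

namespace Pool.Agent.Q28.EN

open Pool.Agent.H914 Pool.Agent.H914.VarClass Pool.Agent.H914.VarClass.Obj Pool.Agent.W492.BB
  Pool.Agent.W550.Corr Pool.Agent.TH133 Pool.Agent.Q28.PV Pool.Agent.Q28.HD

set_option linter.unusedSectionVars false

variable {k : Type u} [Field k] {𝒱 : VarClass k}

variable {C : TheoryData.{u, v, 0} 𝒱 ℚ} [hC : IsChowProj C] {K : Type w} [Field K]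
  {H : WeilTheoryData.{u, v, w} C K} [hH : IsWeilProj H] {X Y Z W : 𝒱.Obj}

include hC hH

/-- The image of the fundamental class of `Y` is killed by the transposed projector. -/
lemma tp_act_fund {n : ℕ} (hn : 1 ≤ n) (hn2 : n ≤ X.dim) (hY : Y.dim = n) {α : C.A (X.prod Y)}
    {β : C.A (Y.prod X)} (hα : C.Deg X.dim α) (hβ : C.Deg Y.dim β)
    (hq : ProjectsTo H X n (C.comp α β)) :
    C.act (tp C (C.comp α β)) (C.act (tp C α) (1 : C.A Y)) = 0 := by
  set w := C.act (tp C α) (1 : C.A Y) with hw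
  have hwm : w ∈ C.gr X ((X.dim : ℤ) - n) := by
    have h := act_memI (C := C) (tp_mem C hα) (C.one_mem Y)
    have e : (X.dim : ℤ) + 0 - Y.dim = X.dim - n := by rw [hY]; ring
    rwa [e] at h
  have hrm : C.act (tp C β) w ∈ C.gr Y 0 := by
    have h := act_memI (C := C) (tp_mem C hβ) hwm
    have e : (Y.dim : ℤ) + (X.dim - n) - X.dim = 0 := by rw [hY]; ring
    rwa [e] at h
  obtain ⟨r, hr⟩ := hC.gr_zero Y _ hrm
  have hpw : C.act (tp C (C.comp α β)) w = r • w := by
    rw [tp_comp C (ch_comm C), C.act_comp, hr, act_map_smul]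
  have hclpw : H.cl (r • w) = 0 := by
    rw [← hpw, cl_act]
    have h2 := (hq.tp (by omega)).act _ (H.cl w) (H.cl_mem hwm)
    rw [h2, if_neg (by omega)]
  rw [hpw]
  by_cases h : r = 0
  · rw [h, zero_smul]
  · exfalso
    apply h
    have hclw : H.cl w = 0 := by
      have h3 : H.cl (r⁻¹ • (r • w)) = 0 := GL.cl_smul_zero hclpw r⁻¹
      rwa [smul_smul, inv_mul_cancel₀ h, one_smul] at h3
    apply eq_zero_of_cl (H := H) (X := Y)
    rw [← hr, cl_act, hclw]
    exact map_zero (H.toTheoryData.actL (H.cl (tp C β)))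

/-- **Isotropy in small degrees.** -/
theorem comp_tp_zero {m n : ℕ} (hn : 1 ≤ n) (hm : 1 ≤ m) (hn2 : n ≤ X.dim) (hm2 : m ≤ X.dim)
    (hd : 2 ≤ X.dim) (hmn : n + m ≤ X.dim + 1) (hY : Y.dim = n) (hZ : Z.dim = m)
    {p q : C.A (X.prod X)} (hp : ProjectsTo H X n p) (hq : ProjectsTo H X m q)
    (hpY : FactorsThrough C p Y) (hqZ : FactorsThrough C q Z) (hD : SplitDivisors H Y Z) :
    C.comp p (tp C q) = 0 := by
  obtain ⟨α, β, hα, hβ, rfl⟩ := hpY
  obtain ⟨α', β', hα', hβ', rfl⟩ := hqZ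
  set p := C.comp α β with hpd
  set q := C.comp α' β' with hqd
  set φ := C.comp p (tp C q) with hφ
  have hqt := hq.tp (by omega : m ≤ 2 * X.dim)
  have hclφ : H.cl φ = 0 := cl_comp_eq_zero hp fun a ha => by
    rw [hqt.act n a ha, if_neg (by omega)]
  have hφm : φ ∈ C.gr (X.prod X) X.dim := by
    have h := comp_memI (C := C) hp.deg hqt.deg
    rwa [add_sub_cancel_right] at h
  set ψ := C.comp β (C.comp φ (tp C β')) with hψ
  have hψm : ψ ∈ C.gr (Y.prod Z) ((n : ℤ) + m - X.dim) := by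
    have h1 := comp_memI (C := C) hφm (tp_mem C hβ')
    have h2 := comp_memI (C := C) hβ h1
    have e : (Y.dim : ℤ) + (X.dim + Z.dim - X.dim) - X.dim = n + m - X.dim := by
      rw [hY, hZ]; ring
    rwa [e] at h2
  have hclψ : H.cl ψ = 0 := comp_cl0 β (cl_comp0 hclφ _)
  have hpφ : C.comp p φ = φ := by rw [hφ, ← comp_assoc, hp.idem]
  have hφq : C.comp φ (tp C q) = φ := by rw [hφ, comp_assoc, hqt.idem]
  have hαψ : C.comp α (C.comp ψ (tp C α')) = φ := by
    have e : tp C q = C.comp (tp C β') (tp C α') := tp_comp C (ch_comm C) α' β'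
    calc C.comp α (C.comp ψ (tp C α'))
        = C.comp (C.comp α β) (C.comp φ (C.comp (tp C β') (tp C α'))) := by
          rw [hψ]; simp only [comp_assoc]
      _ = φ := by rw [← e, ← hpd, hφq, hpφ]
  rcases lt_trichotomy (n + m) X.dim with h | h | h
  · have h0 : ψ = 0 := by
      rw [C.gr_neg _ _ (by omega)] at hψm
      exact (Submodule.mem_bot _).1 hψm
    rw [← hαψ, h0, zero_comp, comp_zero]
  · have e : (n : ℤ) + m - X.dim = 0 := by omega
    rw [e] at hψm
    obtain ⟨r, hr⟩ := hC.gr_zero _ _ hψm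
    have h0 : r = 0 := by
      apply eq_zero_of_cl (H := H) (X := Y.prod Z)
      rw [← hr]; exact hclψ
    rw [← hαψ, hr, h0, zero_smul, zero_comp, comp_zero]
  · have e : (n : ℤ) + m - X.dim = (1 : ℕ) := by push_cast; omega
    rw [e] at hψm
    obtain ⟨b, c, hb, hc, hδ⟩ := hD ψ ⟨hψm, hclψ⟩
    have e1 : φ = C.ext (C.act (tp C α) b) (C.act (tp C α') 1) +
        C.ext (C.act (tp C α) 1) (C.act (tp C α') c) := by
      rw [← hαψ, hδ, add_comp, comp_ext_left, comp_ext_left, comp_add, comp_ext_right,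
        comp_ext_right]
    have e2 : φ = C.ext (C.act (tp C α) b) (C.act (tp C q) (C.act (tp C α') 1)) +
        C.ext (C.act (tp C α) 1) (C.act (tp C q) (C.act (tp C α') c)) := by
      conv_lhs => rw [← hφq, e1]
      rw [add_comp, comp_ext_left, comp_ext_left]
    rw [tp_act_fund hm hm2 hZ hα' hβ' hq, ext_zero', zero_add] at e2
    have e3 : φ = C.ext (C.act (tp C p) (C.act (tp C α) 1))
        (C.act (tp C q) (C.act (tp C α') c)) := by
      conv_lhs => rw [← hpφ, e2]
      rw [comp_ext_right]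
    rw [e3, tp_act_fund hn hn2 hY hα hβ hp, zero_ext']

/-- **Self-dual decompositions from projectors which factor through small varieties.** -/
theorem selfDual_of_factors (hS : SplitPicard H X) (hM : HasPicardProjector H X)
    (hd : 2 ≤ X.dim) (hD : ∀ Y Z : 𝒱.Obj, SplitDivisors H Y Z) {q : ℕ → C.A (X.prod X)}
    (hq : ∀ n, 2 ≤ n → n < X.dim → ProjectsTo H X n (q n) ∧
      ∃ Y : 𝒱.Obj, Y.dim = n ∧ FactorsThrough C (q n) Y)
    (hr : ∀ m n, 2 ≤ m → m < n → n < X.dim → C.comp (q m) (q n) = 0)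
    (ht : ∀ m n, m < X.dim → n < X.dim → X.dim + 2 ≤ m + n → C.comp (q m) (tp C (q n)) = 0) :
    MS.HasSelfDualCK H X := by
  refine exists_selfDual hS hM hd (fun n h1 h2 => (hq n h1 h2).1) hr fun m n h1 h2 h3 h4 => ?_
  rcases Nat.lt_or_ge (m + n) (X.dim + 2) with h | h
  · obtain ⟨h5, Y, hY, h6⟩ := hq m h1 h2
    obtain ⟨h7, Z, hZ, h8⟩ := hq n h3 h4
    exact comp_tp_zero (by omega) (by omega) h2.le h4.le hd (by omega) hY hZ h5 h7 h6 h8 (hD Y Z)
  · exact ht m n h2 h4 h

/-- **Threefolds.** If `h^2(X)` is a direct summand of the motive of a surface, then `X` has a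
self-dual Chow-Kunneth decomposition. -/
theorem threefold (hS : SplitPicard H X) (hM : HasPicardProjector H X) (hd : X.dim = 3)
    {S : 𝒱.Obj} (hS2 : S.dim = 2) (hD : SplitDivisors H S S) {q : C.A (X.prod X)}
    (hq : ProjectsTo H X 2 q) (hf : FactorsThrough C q S) : MS.HasSelfDualCK H X := by
  refine exists_selfDual hS hM (by omega) (q := fun _ => q) ?_ ?_ ?_
  · intro n h1 h2
    have e : n = 2 := by omega
    subst e
    exact hq
  · intro m n h1 h2 h3
    omega
  · intro m n h1 h2 h3 h4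
    exact comp_tp_zero (by omega) (by omega) (by omega) (by omega) (by omega) (n := 2) (m := 2)
      (by omega) hS2 hS2 hq hq hf hf hD

end Pool.Agent.Q28.EN
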