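import Mathlib

/-!
# One-sided orthogonal idempotents

Gram-Schmidt orthogonalisation of idempotents `q 0, q 1, …` with `q b * q a = 0` for `a < b`.
-/

namespace Pool.Agent.Q28.EN

variable {R : Type*} [Ring R]

/-- The product `(1 - q 0) ⋯ (1 - q (k - 1))`. -/
def pr (q : ℕ → R) : ℕ → R
  | 0 => 1
  | k + 1 => pr q k * (1 - q k)

/-- The orthogonalised idempotents. -/
def gs (q : ℕ → R) (k : ℕ) : R := pr q k * q k

variable {q : ℕ → R}

lemma mul_pr {z : R} {k : ℕ} (h : ∀ a < k, z * q a = 0) : z * pr q k = z := by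
  induction k with
  | zero => rw [pr, mul_one]
  | succ k ih =>
    rw [pr, ← mul_assoc, ih fun a ha => h a (by omega), mul_sub, mul_one, h k (by omega), sub_zero]

lemma q_mul_pr {l k : ℕ} (hi : q l * q l = q l) (hr : ∀ a < l, q l * q a = 0) (hlk : l < k) :
    q l * pr q k = 0 := by
  induction k with
  | zero => omega
  | succ k ih =>
    rcases Nat.lt_or_ge l k with h | h
    · rw [pr, ← mul_assoc, ih h, zero_mul]
    · have : l = k := by omega
      subst this
      rw [pr, ← mul_assoc, mul_pr hr, mul_sub, mul_one, hi, sub_self]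

lemma gs_mul_gs {N : ℕ} (hi : ∀ n < N, q n * q n = q n)
    (hr : ∀ a b, a < b → b < N → q b * q a = 0) {m n : ℕ} (hm : m < N) (hn : n < N) :
    gs q m * gs q n = if m = n then gs q m else 0 := by
  unfold gs
  rcases lt_trichotomy m n with h | h | h
  · rw [if_neg (by omega), mul_assoc, ← mul_assoc (q m),
      q_mul_pr (hi m hm) (fun a ha => hr a m ha hm) h, zero_mul, mul_zero]
  · subst h
    rw [if_pos rfl, mul_assoc, ← mul_assoc (q m), mul_pr fun a ha => hr a m ha hm, hi m hm]
  · rw [if_neg (by omega), mul_assoc, ← mul_assoc (q m),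
      mul_pr fun a ha => hr a m (by omega) hm, hr n m h hm, mul_zero]

variable {S : Type*} [Ring S]

lemma pr_mem {T : Type*} [SetLike T R] [SubringClass T R] {s : T} {k : ℕ}
    (h : ∀ n < k, q n ∈ s) : pr q k ∈ s := by
  induction k with
  | zero => exact one_mem s
  | succ k ih =>
    exact mul_mem (ih fun n hn => h n (by omega)) (sub_mem (one_mem s) (h k (by omega)))

lemma gs_mem {T : Type*} [SetLike T R] [SubringClass T R] {s : T} {k : ℕ}
    (h : ∀ n ≤ k, q n ∈ s) : gs q k ∈ s :=
  mul_mem (pr_mem fun n hn => h n (by omega)) (h k le_rfl)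

end Pool.Agent.Q28.EN
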