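import Pool.Agent.Q28.EN.Div
import Pool.Agent.Q28.EN.Ring
import Pool.Agent.Q28.PV.Basic

/-!
# Chow-Kunneth decompositions from projectors in the middle degrees
-/

open CategoryTheory AlgebraicGeometry

universe u v w

namespace Pool.Agent.Q28.EN

open Pool.Agent.H914 Pool.Agent.H914.VarClass Pool.Agent.H914.VarClass.Obj Pool.Agent.W492.BB
  Pool.Agent.W550.Corr Pool.Agent.TH133 Pool.Agent.Q28.PV Pool.Agent.Q28.HD Finset

set_option linter.unusedSectionVars false

variable {k : Type u} [Field k] {𝒱 : VarClass k}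

variable {C : TheoryData.{u, v, 0} 𝒱 ℚ} [hC : IsChowProj C] {K : Type w} [Field K]
  {H : WeilTheoryData.{u, v, w} C K} [hH : IsWeilProj H] {X Y Z W : 𝒱.Obj}

include hC hH

lemma ProjectsTo.kill_zero {n : ℕ} (hn : 1 ≤ n) {q : C.A (X.prod X)} (h : ProjectsTo H X n q) :
    H.act (H.cl q) 1 = 0 := by
  rw [h.act 0 1 (H.one_mem X), if_neg (by omega)]

lemma ProjectsTo.kill_one {n : ℕ} (hn : 2 ≤ n) {q : C.A (X.prod X)} (h : ProjectsTo H X n q) :
    ∀ a, H.Deg 1 a → H.act (H.cl q) a = 0 := fun a ha => by
  rw [h.act 1 a ha, if_neg (by omega)]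

/-- The projector onto `H^0` given by a zero-cycle of degree one. -/
lemma projectsTo_point {x : C.A X} (hx : C.Deg X.dim x) (h1 : HasDegree C x 1) :
    ProjectsTo H X 0 (C.ext x 1) where
  deg := by
    have h := ext_mem' (C := C) (X := X) (Y := X) hx (C.one_mem X)
    rwa [add_zero] at h
  idem := by
    rw [comp_ext_left, act_ext' (q := 1) (by rwa [mul_one]), one_smul]
  act := by
    intro m a ha
    have e1 : H.act (H.cl (C.ext x (1 : C.A X))) a =
        H.push (snd X X) (H.pull (fst X X) (H.cl x * a)) := by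
      rw [TheoryData.act_apply, TheoryData.ext, map_mul H.cl, H.cl_pull, H.cl_pull, map_one,
        map_one, mul_one, map_mul (H.pull (fst X X))]
    rcases lt_trichotomy m 0 with h | h | h
    · have ha0 : a = 0 := by
        by_contra h0
        have := nonneg_of_mem H ha h0
        omega
      rw [ha0, if_neg (by omega)]
      exact map_zero (H.toTheoryData.actL _)
    · subst h
      obtain ⟨c, rfl⟩ := hH.gr_zero X a ha
      rw [e1, mul_smul_comm, mul_one, map_smul, map_smul, ← H.cl_pull, ← H.cl_push, (h1 X).1,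
        one_smul, map_one]
      simp
    · have h2 : H.cl x * a = 0 := by
        have h3 := H.mul_mem (H.cl_mem hx) ha
        rw [gr_top H (by omega)] at h3
        exact (Submodule.mem_bot _).1 h3
      rw [e1, h2, map_zero, map_zero, if_neg (by omega)]

section ends

variable {x : C.A X} {T : 𝒱.Obj} {α : C.A (X.prod T)} {D : C.A (T.prod X)}

/-- No morphisms to `h^(2 d)`. -/
lemma comp_point_right {n : ℕ} (hn : n < 2 * X.dim) {q : C.A (X.prod X)} (h : ProjectsTo H X n q)
    (x : C.A X) : C.comp q (tp C (C.ext x 1)) = 0 := by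
  have h1 := comp_point (h.tp hn.le).deg ((h.tp hn.le).kill_zero (by omega)) x
  have h2 := congrArg (tp C) h1
  rw [tp_comp C (ch_comm C), tp_tp, tp_zero] at h2
  exact h2

/-- No raising morphisms to `h^(2 d - 1)`. -/
lemma comp_picard_right (hS : SplitPicard H X) (hT : T.dim = 1) (hα : C.Deg X.dim α)
    (hD : C.Deg 1 D) (hp : ProjectsTo H X 1 (C.comp α D)) {n : ℕ} (hn : n + 2 ≤ 2 * X.dim)
    {q : C.A (X.prod X)} (h : ProjectsTo H X n q) : C.comp q (tp C (C.comp α D)) = 0 := by
  have h3 := h.tp (by omega : n ≤ 2 * X.dim)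
  have h1 := comp_picard hS hT hα hD hp h3.deg h3.idem (h3.kill_zero (by omega))
    (h3.kill_one (by omega))
  have h2 := congrArg (tp C) h1
  rw [tp_comp C (ch_comm C), tp_tp, tp_zero] at h2
  exact h2

end ends

/-- **Gram-Schmidt.** Projectors onto the degrees `n ≠ dim X`, orthogonal on one side, give a
Chow-Kunneth decomposition. -/
theorem exists_ck_of_oneSided {e : ℕ → C.A (X.prod X)}
    (he : ∀ n ≤ 2 * X.dim, n ≠ X.dim → ProjectsTo H X n (e n))
    (hr : ∀ a b, a < b → b ≤ 2 * X.dim → a ≠ X.dim → b ≠ X.dim → C.comp (e a) (e b) = 0) :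
    ∃ π, IsCK H X π := by
  set d := X.dim with hd
  let e' : ℕ → Cor C X := e
  let q : ℕ → Cor C X := fun n => if n = d then 0 else e' n
  have q1 : ∀ n, n ≠ d → q n = e' n := fun n hn => if_neg hn
  have q2 : q d = 0 := if_pos rfl
  have hi : ∀ n < 2 * d + 1, q n * q n = q n := by
    intro n hn
    by_cases h : n = d
    · rw [h, q2, mul_zero]
    · rw [q1 n h]
      exact (he n (by omega) h).idem
  have hrr : ∀ a b, a < b → b < 2 * d + 1 → q b * q a = 0 := by
    intro a b hab hb
    by_cases h : a = d
    · rw [h, q2, mul_zero]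
    by_cases h' : b = d
    · rw [h', q2, zero_mul]
    rw [q1 a h, q1 b h']
    exact hr a b hab (by omega) h h'
  have hqm : ∀ n < 2 * d + 1, q n ∈ cor0 C X := by
    intro n hn
    by_cases h : n = d
    · rw [h, q2]; exact (cor0 C X).zero_mem
    · rw [q1 n h]; exact (he n (by omega) h).deg
  have hgm : ∀ n < 2 * d + 1, gs q n ∈ cor0 C X := fun n hn => gs_mem fun m hm => hqm m (by omega)
  have hact : ∀ n < 2 * d + 1, n ≠ d → ∀ (m : ℤ) (a : H.A X), a ∈ H.gr X m →
      actH C X H (q n) a = if m = n then a else 0 := by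
    intro n hn h m a ha
    rw [q1 n h]
    exact (he n (by omega) h).act m a ha
  have hpr : ∀ n k, k ≤ n → n < 2 * d + 1 → ∀ a : H.A X, a ∈ H.gr X n →
      actH C X H (pr q k) a = a := by
    intro n k
    induction k with
    | zero => intro _ _ a _; rw [pr, map_one]; rfl
    | succ k ih =>
      intro hk hn a ha
      have h1 : actH C X H (1 - q k) a = a := by
        rw [map_sub, map_one, LinearMap.sub_apply]
        by_cases h : k = d
        · rw [h, q2, map_zero]; simp
        · rw [hact k (by omega) h n a ha, if_neg (by omega)]; simp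
      rw [pr, map_mul]
      change actH C X H (pr q k) (actH C X H (1 - q k) a) = a
      rw [h1]
      exact ih (by omega) hn a ha
  have hgact : ∀ n < 2 * d + 1, n ≠ d → ∀ (m : ℤ) (a : H.A X), a ∈ H.gr X m →
      actH C X H (gs q n) a = if m = n then a else 0 := by
    intro n hn h m a ha
    rw [gs, map_mul]
    change actH C X H (pr q n) (actH C X H (q n) a) = _
    rw [hact n hn h m a ha]
    split_ifs with hm
    · subst hm; exact hpr n n le_rfl hn a ha
    · exact map_zero _
  have hgd : gs q d = 0 := by rw [gs, q2, mul_zero]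
  let E : Cor C X := ∑ n ∈ range (2 * d + 1), gs q n
  have hgE : ∀ n < 2 * d + 1, gs q n * E = gs q n := by
    intro n hn
    simp only [E]
    rw [mul_sum, sum_eq_single n]
    · rw [gs_mul_gs hi hrr hn hn, if_pos rfl]
    · intro m hm hmn
      rw [gs_mul_gs hi hrr hn (mem_range.1 hm), if_neg (Ne.symm hmn)]
    · intro h
      exact absurd (mem_range.2 hn) h
  have hEg : ∀ n < 2 * d + 1, E * gs q n = gs q n := by
    intro n hn
    simp only [E]
    rw [sum_mul, sum_eq_single n]
    · rw [gs_mul_gs hi hrr hn hn, if_pos rfl]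
    · intro m hm hmn
      rw [gs_mul_gs hi hrr (mem_range.1 hm) hn, if_neg hmn]
    · intro h
      exact absurd (mem_range.2 hn) h
  have hEE : E * E = E := by
    conv_lhs => simp only [E]
    rw [sum_mul]
    exact sum_congr rfl fun n hn => hgE n (mem_range.1 hn)
  have hEm : E ∈ cor0 C X := (cor0 C X).sum_mem fun n hn => hgm n (mem_range.1 hn)
  let P : ℕ → Cor C X := fun n => if n = d then 1 - E else if n < 2 * d + 1 then gs q n else 0
  have P1 : P d = 1 - E := if_pos rfl
  have P2 : ∀ n < 2 * d + 1, n ≠ d → P n = gs q n := fun n hn h =>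
    (if_neg h).trans (if_pos hn)
  have P3 : ∀ n, 2 * d < n → P n = 0 := fun n hn =>
    (if_neg (by omega)).trans (if_neg (by omega))
  refine ⟨P, isCK_of (P := P) ?_ P3 ?_ ?_ ?_⟩
  · intro n
    by_cases h : n = d
    · rw [h, P1]; exact (cor0 C X).sub_mem (cor0 C X).one_mem hEm
    · rcases Nat.lt_or_ge n (2 * d + 1) with h' | h'
      · rw [P2 n h' h]; exact hgm n h'
      · rw [P3 n (by omega)]; exact (cor0 C X).zero_mem
  · intro m n
    rcases Nat.lt_or_ge m (2 * d + 1) with hm | hm
    swap
    · rw [P3 m (by omega), zero_mul]; split_ifs <;> rfl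
    rcases Nat.lt_or_ge n (2 * d + 1) with hn | hn
    swap
    · rw [P3 n (by omega), mul_zero, if_neg (by omega)]
    by_cases h : m = d
    · by_cases h' : n = d
      · rw [h, h', P1, if_pos rfl, mul_sub, mul_one, sub_mul, one_mul, hEE, sub_self, sub_zero]
      · rw [h, P1, P2 n hn h', if_neg (by omega), sub_mul, one_mul, hEg n hn, sub_self]
    · by_cases h' : n = d
      · rw [h', P1, P2 m hm h, if_neg (by omega), mul_sub, mul_one, hgE m hm, sub_self]
      · rw [P2 m hm h, P2 n hn h', gs_mul_gs hi hrr hm hn]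
  · have h1 : ∀ n ∈ range (2 * d + 1), P n = gs q n + if n = d then 1 - E else 0 := by
      intro n hn
      by_cases h : n = d
      · rw [if_pos h, h, P1, hgd, zero_add]
      · rw [if_neg h, add_zero, P2 n (mem_range.1 hn) h]
    rw [sum_congr rfl h1, sum_add_distrib, sum_ite_eq', if_pos (mem_range.2 (by omega))]
    change E + (1 - E) = 1
    abel
  · intro n m a ha
    by_cases ha0 : a = 0
    · rw [ha0, map_zero]; split_ifs <;> rfl
    have hm0 := nonneg_of_mem H ha ha0
    obtain ⟨m, rfl⟩ := Int.eq_ofNat_of_zero_le hm0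
    have hm2 : m < 2 * d + 1 := by
      by_contra h
      apply ha0
      rw [gr_top H (by omega)] at ha
      exact (Submodule.mem_bot _).1 ha
    have hEa : actH C X H E a = if m = d then 0 else a := by
      simp only [E]
      rw [map_sum, LinearMap.sum_apply]
      by_cases h : m = d
      · rw [if_pos h]
        apply sum_eq_zero
        intro j hj
        by_cases hj' : j = d
        · rw [hj', hgd, map_zero]; rfl
        · rw [hgact j (mem_range.1 hj) hj' m a ha, if_neg (by omega)]
      · rw [if_neg h, sum_eq_single m]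
        · rw [hgact m hm2 h m a ha, if_pos rfl]
        · intro j hj hjm
          by_cases hj' : j = d
          · rw [hj', hgd, map_zero]; rfl
          · rw [hgact j (mem_range.1 hj) hj' m a ha, if_neg (by omega)]
        · intro h'
          exact absurd (mem_range.2 hm2) h'
    by_cases h : n = d
    · rw [h, P1, map_sub, map_one, LinearMap.sub_apply, hEa]
      by_cases h' : m = d
      · rw [if_pos h', if_pos (by omega)]; simp
      · rw [if_neg h', if_neg (by omega)]; simp
    · rcases Nat.lt_or_ge n (2 * d + 1) with h' | h'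
      · rw [P2 n h' h]; exact hgact n h' h m a ha
      · rw [P3 n (by omega), map_zero, if_neg (by omega)]; rfl

/-- The projectors in the degrees `0`, `1`, `2 d - 1`, `2 d`, and given ones in the middle. -/
noncomputable def ends (X : 𝒱.Obj) (p0 p1 : C.A (X.prod X)) (q : ℕ → C.A (X.prod X)) (n : ℕ) :
    C.A (X.prod X) :=
  if n = 0 then p0 else if n = 1 then p1 else if n = 2 * X.dim then tp C p0 else
    if n + 1 = 2 * X.dim then tp C p1 else q n

/-- **The degrees `0`, `1`, `2 d - 1`, `2 d` and `d` are free.** -/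
theorem exists_ck (hS : SplitPicard H X) (hM : HasPicardProjector H X) (hd : 2 ≤ X.dim)
    {q : ℕ → C.A (X.prod X)}
    (hq : ∀ n, 2 ≤ n → n + 2 ≤ 2 * X.dim → n ≠ X.dim → ProjectsTo H X n (q n))
    (hr : ∀ m n, 2 ≤ m → m < n → n + 2 ≤ 2 * X.dim → m ≠ X.dim → n ≠ X.dim →
      C.comp (q m) (q n) = 0) : ∃ π, IsCK H X π := by
  obtain ⟨x, hx, hx1⟩ := exists_point (C := C) X
  obtain ⟨T, α, D, hT, hα, hD, hp⟩ := hM
  have hp0 := projectsTo_point (H := H) hx hx1
  set p0 := C.ext x (1 : C.A X) with hp0d
  set p1 := C.comp α D with hp1d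
  have e0 : ends X p0 p1 q 0 = p0 := if_pos rfl
  have e1 : ends X p0 p1 q 1 = p1 := rfl
  have e2 : ends X p0 p1 q (2 * X.dim) = tp C p0 := by
    unfold ends
    rw [if_neg (by omega), if_neg (by omega), if_pos rfl]
  have e3 : ∀ n, n + 1 = 2 * X.dim → ends X p0 p1 q n = tp C p1 := by
    intro n hn
    unfold ends
    rw [if_neg (by omega), if_neg (by omega), if_neg (by omega), if_pos hn]
  have e4 : ∀ n, 2 ≤ n → n + 2 ≤ 2 * X.dim → ends X p0 p1 q n = q n := by
    intro n hn hn'
    unfold ends
    rw [if_neg (by omega), if_neg (by omega), if_neg (by omega), if_neg (by omega)]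
  have he : ∀ n ≤ 2 * X.dim, n ≠ X.dim → ProjectsTo H X n (ends X p0 p1 q n) := by
    intro n hn hnd
    by_cases h0 : n = 0
    · subst h0; rw [e0]; exact hp0
    by_cases h1 : n = 1
    · subst h1; rw [e1]; exact hp
    by_cases h2 : n = 2 * X.dim
    · rw [h2, e2]
      have := hp0.tp (by omega)
      rwa [Nat.sub_zero] at this
    by_cases h3 : n + 1 = 2 * X.dim
    · rw [e3 n h3]
      have := hp.tp (by omega)
      have e : 2 * X.dim - 1 = n := by omega
      rwa [e] at this
    rw [e4 n (by omega) (by omega)]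
    exact hq n (by omega) (by omega) hnd
  apply exists_ck_of_oneSided he
  intro a b hab hb ha' hb'
  have hA := he a (by omega) ha'
  have hB := he b hb hb'
  by_cases h0 : a = 0
  · subst h0
    rw [e0]
    exact comp_point hB.deg (hB.kill_zero (by omega)) x
  by_cases h1 : a = 1
  · subst h1
    rw [e1]
    exact comp_picard hS hT hα hD hp hB.deg hB.idem (hB.kill_zero (by omega))
      (hB.kill_one (by omega))
  by_cases h2 : b = 2 * X.dim
  · subst h2
    rw [e2]
    exact comp_point_right (by omega) hA x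
  by_cases h3 : b + 1 = 2 * X.dim
  · rw [e3 b h3]
    exact comp_picard_right hS hT hα hD hp (by omega) hA
  rw [e4 a (by omega) (by omega), e4 b (by omega) (by omega)]
  exact hr a b (by omega) hab (by omega) ha' hb'

/-- **Chow-Kunneth decompositions and projectors onto the middle degrees.** -/
theorem ck_iff (hS : SplitPicard H X) (hM : HasPicardProjector H X) (hd : 2 ≤ X.dim) :
    (∃ π, IsCK H X π) ↔ ∃ q : ℕ → C.A (X.prod X),
      (∀ n, 2 ≤ n → n + 2 ≤ 2 * X.dim → n ≠ X.dim → ProjectsTo H X n (q n)) ∧
      ∀ m n, 2 ≤ m → m < n → n + 2 ≤ 2 * X.dim → m ≠ X.dim → n ≠ X.dim →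
        C.comp (q m) (q n) = 0 := by
  constructor
  · rintro ⟨π, h⟩
    exact ⟨π, fun n _ _ _ => ⟨h.deg n, h.idem n, fun m a ha => h.actH_eq n m ha⟩,
      fun m n _ hmn _ _ _ => h.orth m n hmn.ne⟩
  · rintro ⟨q, h1, h2⟩
    exact exists_ck hS hM hd h1 h2

/-- **The lower half.** Projectors onto the degrees `n < dim X`, orthogonal on one side to each
other and to their transposes, give a self-dual Chow-Kunneth decomposition. -/
theorem lowerHalf_of_oneSided {e : ℕ → C.A (X.prod X)}
    (he : ∀ n < X.dim, ProjectsTo H X n (e n))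
    (hr : ∀ a b, a < b → b < X.dim → C.comp (e a) (e b) = 0)
    (ht : ∀ a < X.dim, ∀ b < X.dim, C.comp (e a) (tp C (e b)) = 0) : MS.HasLowerHalf H X := by
  set d := X.dim with hd
  let q : ℕ → Cor C X := e
  have hi : ∀ n < d, q n * q n = q n := fun n hn => (he n hn).idem
  have hrr : ∀ a b, a < b → b < d → q b * q a = 0 := fun a b hab hb => hr a b hab hb
  have htt : ∀ a < d, ∀ b < d, tpR C X (q b) * q a = 0 := fun a ha b hb => ht a ha b hb
  have hqm : ∀ n < d, q n ∈ cor0 C X := fun n hn => (he n hn).deg
  have hgm : ∀ n < d, gs q n ∈ cor0 C X := fun n hn => gs_mem fun m hm => hqm m (by omega)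
  have hpr : ∀ n k, k ≤ n → n < d → ∀ a : H.A X, a ∈ H.gr X n → actH C X H (pr q k) a = a := by
    intro n k
    induction k with
    | zero => intro _ _ a _; rw [pr, map_one]; rfl
    | succ k ih =>
      intro hk hn a ha
      have h1 : actH C X H (1 - q k) a = a := by
        rw [map_sub, map_one, LinearMap.sub_apply]
        have h2 : actH C X H (q k) a = 0 := by
          have h3 := (he k (by omega)).act n a ha
          rw [if_neg (by omega)] at h3
          exact h3
        rw [h2]; simp
      rw [pr, map_mul]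
      change actH C X H (pr q k) (actH C X H (1 - q k) a) = a
      rw [h1]
      exact ih (by omega) hn a ha
  have htpr : ∀ (z : Cor C X) (k : ℕ), k ≤ d → (∀ a < d, tpR C X (q a) * z = 0) →
      tpR C X (pr q k) * z = z := by
    intro z k hk hz
    induction k with
    | zero => rw [pr, tpR_one, one_mul]
    | succ k ih =>
      rw [pr, tpR_mul, map_sub, tpR_one, mul_assoc, ih (by omega), sub_mul, one_mul,
        hz k (by omega), sub_zero]
  have hty : ∀ m < d, ∀ n < d, tpR C X (gs q m) * q n = 0 := by
    intro m hm n hn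
    rw [gs, tpR_mul, mul_assoc, htpr (q n) m hm.le fun a ha => htt n hn a ha, htt n hn m hm]
  let P : ℕ → Cor C X := fun n => gs q n
  refine ⟨P, fun n hn => hgm n hn, ?_, ?_, ?_⟩
  · intro m hm n hn
    have h1 := gs_mul_gs hi hrr hn hm
    by_cases hmn : m = n
    · subst hmn
      rw [if_pos rfl] at h1
      exact h1.trans (if_pos rfl).symm
    · rw [if_neg (Ne.symm hmn)] at h1
      exact h1.trans (if_neg hmn).symm
  · intro n hn m a ha
    change actH C X H (gs q n) a = _
    rw [gs, map_mul]
    change actH C X H (pr q n) (actH C X H (q n) a) = _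
    have h3 : actH C X H (q n) a = if m = n then a else 0 := (he n hn).act m a ha
    rw [h3]
    split_ifs with hm
    · subst hm; exact hpr n n le_rfl hn a ha
    · exact map_zero _
  · intro m hm n hn
    change tpR C X (gs q m) * gs q n = 0
    have h1 : tpR C X (gs q m) * pr q n = tpR C X (gs q m) :=
      mul_pr fun a ha => hty m hm a (by omega)
    have h2 : gs q n = pr q n * q n := rfl
    rw [h2, ← mul_assoc, h1, hty m hm n hn]

/-- **The degrees `0` and `1` are free for self-dual decompositions.** -/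
theorem exists_selfDual (hS : SplitPicard H X) (hM : HasPicardProjector H X) (hd : 2 ≤ X.dim)
    {q : ℕ → C.A (X.prod X)} (hq : ∀ n, 2 ≤ n → n < X.dim → ProjectsTo H X n (q n))
    (hr : ∀ m n, 2 ≤ m → m < n → n < X.dim → C.comp (q m) (q n) = 0)
    (ht : ∀ m n, 2 ≤ m → m < X.dim → 2 ≤ n → n < X.dim → C.comp (q m) (tp C (q n)) = 0) :
    MS.HasSelfDualCK H X := by
  apply MS.selfDual_of_lowerHalf
  obtain ⟨x, hx, hx1⟩ := exists_point (C := C) X
  obtain ⟨T, α, D, hT, hα, hD, hp⟩ := hM
  have hp0 := projectsTo_point (H := H) hx hx1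
  set p0 := C.ext x (1 : C.A X) with hp0d
  set p1 := C.comp α D with hp1d
  let e : ℕ → C.A (X.prod X) := fun n => if n = 0 then p0 else if n = 1 then p1 else q n
  have e0 : e 0 = p0 := rfl
  have e1 : e 1 = p1 := rfl
  have e4 : ∀ n, 2 ≤ n → e n = q n := by
    intro n hn
    simp only [e]
    rw [if_neg (by omega), if_neg (by omega)]
  have he : ∀ n < X.dim, ProjectsTo H X n (e n) := by
    intro n hn
    by_cases h0 : n = 0
    · subst h0; rw [e0]; exact hp0
    by_cases h1 : n = 1
    · subst h1; rw [e1]; exact hp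
    rw [e4 n (by omega)]
    exact hq n (by omega) (by omega)
  apply lowerHalf_of_oneSided he
  · intro a b hab hb
    have hB := he b hb
    by_cases h0 : a = 0
    · subst h0
      rw [e0]
      exact comp_point hB.deg (hB.kill_zero (by omega)) x
    by_cases h1 : a = 1
    · subst h1
      rw [e1]
      exact comp_picard hS hT hα hD hp hB.deg hB.idem (hB.kill_zero (by omega))
        (hB.kill_one (by omega))
    rw [e4 a (by omega), e4 b (by omega)]
    exact hr a b (by omega) hab hb
  · intro a ha b hb
    have hA := he a ha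
    have hB := he b hb
    have hB' := hB.tp (by omega)
    by_cases h0 : a = 0
    · subst h0
      rw [e0]
      exact comp_point hB'.deg (hB'.kill_zero (by omega)) x
    by_cases h1 : a = 1
    · subst h1
      rw [e1]
      exact comp_picard hS hT hα hD hp hB'.deg hB'.idem (hB'.kill_zero (by omega))
        (hB'.kill_one (by omega))
    by_cases h2 : b = 0
    · subst h2
      rw [e0]
      exact comp_point_right (by omega) hA x
    by_cases h3 : b = 1
    · subst h3
      rw [e1]
      exact comp_picard_right hS hT hα hD hp (by omega) hA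
    rw [e4 a (by omega), e4 b (by omega)]
    exact ht a b (by omega) ha (by omega) hb

/-- **Self-dual decompositions and projectors onto the degrees `2, …, dim X - 1`.** -/
theorem selfDual_iff (hS : SplitPicard H X) (hM : HasPicardProjector H X) (hd : 2 ≤ X.dim) :
    MS.HasSelfDualCK H X ↔ ∃ q : ℕ → C.A (X.prod X),
      (∀ n, 2 ≤ n → n < X.dim → ProjectsTo H X n (q n)) ∧
      (∀ m n, 2 ≤ m → m < n → n < X.dim → C.comp (q m) (q n) = 0) ∧
      ∀ m n, 2 ≤ m → m < X.dim → 2 ≤ n → n < X.dim → C.comp (q m) (tp C (q n)) = 0 := by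
  constructor
  · rintro ⟨π, h, hs⟩
    refine ⟨π, fun n _ _ => ⟨h.deg n, h.idem n, fun m a ha => h.actH_eq n m ha⟩,
      fun m n _ hmn _ => h.orth m n hmn.ne, fun m n _ hm _ hn => ?_⟩
    rw [hs n (by omega), h.orth _ _ (by omega)]
  · rintro ⟨q, h1, h2, h3⟩
    exact exists_selfDual hS hM hd h1 h2 h3

end Pool.Agent.Q28.EN
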