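import Pool.Agent.Q28.EN.Main

/-!
# Projectors onto the middle degrees, orthogonal on one side for some order of the degrees
-/

open CategoryTheory AlgebraicGeometry

universe u v w

namespace Pool.Agent.Q28.EN

open Pool.Agent.H914 Pool.Agent.H914.VarClass Pool.Agent.H914.VarClass.Obj Pool.Agent.W492.BB
  Pool.Agent.W550.Corr Pool.Agent.TH133 Pool.Agent.Q28.PV Pool.Agent.Q28.HD Finset

set_option linter.unusedSectionVars false

variable {k : Type u} [Field k] {𝒱 : VarClass k}

variable {C : TheoryData.{u, v, 0} 𝒱 ℚ} [hC : IsChowProj C] {K : Type w} [Field K]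
  {H : WeilTheoryData.{u, v, w} C K} [hH : IsWeilProj H] {X Y Z W : 𝒱.Obj}

include hC hH

lemma ProjectsTo.idemR {n : ℕ} {q : Cor C X} (h : ProjectsTo H X n q) : q * q = q := h.idem

lemma ProjectsTo.actR {n : ℕ} {q : Cor C X} (h : ProjectsTo H X n q) (m : ℤ) {a : H.A X}
    (ha : a ∈ H.gr X m) : actH C X H q a = if m = n then a else 0 := h.act m a ha

/-- Gram-Schmidt for projectors onto the degrees `e 0, e 1, …`. -/
theorem gs_labels {N : ℕ} {e : ℕ → ℕ} {q : ℕ → Cor C X}
    (hq : ∀ i < N, ProjectsTo H X (e i) (q i)) (hinj : ∀ i < N, ∀ j < N, e i = e j → i = j)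
    (hr : ∀ a b, a < b → b < N → q b * q a = 0) :
    ∀ i < N, ProjectsTo H X (e i) (gs (R := Cor C X) q i) := by
  have hpr : ∀ n k, k ≤ n → n < N → ∀ a : H.A X, a ∈ H.gr X (e n : ℤ) →
      actH C X H (pr q k) a = a := by
    intro n k
    induction k with
    | zero => intro _ _ a _; rw [pr, map_one]; rfl
    | succ k ih =>
      intro hk hn a ha
      have h1 : actH C X H (1 - q k) a = a := by
        rw [map_sub, map_one, LinearMap.sub_apply, (hq k (by omega)).actR _ ha, if_neg, sub_zero]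
        · rfl
        · intro h
          have := hinj n hn k (by omega) (by exact_mod_cast h)
          omega
      rw [pr, map_mul]
      change actH C X H (pr q k) (actH C X H (1 - q k) a) = a
      rw [h1]
      exact ih (by omega) hn a ha
  intro i hi
  refine ⟨?_, ?_, ?_⟩
  · exact gs_mem (s := cor0 C X) fun m hm => (hq m (lt_of_le_of_lt hm hi)).deg
  · have h : gs q i * gs q i = gs q i :=
      (gs_mul_gs (fun n hn => (hq n hn).idemR) hr hi hi).trans (if_pos rfl)
    exact h
  · intro m a ha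
    have h1 : actH C X H (gs q i) a = actH C X H (pr q i) (actH C X H (q i) a) := by
      rw [gs, map_mul]; rfl
    refine h1.trans ?_
    rw [(hq i hi).actR _ ha]
    split_ifs with hm
    · subst hm; exact hpr i i le_rfl hi a ha
    · exact map_zero _

omit hH in
/-- Isotropic families stay isotropic. -/
lemma gs_isotropic {N : ℕ} {q : ℕ → Cor C X}
    (ht : ∀ a < N, ∀ b < N, tpR C X (q b) * q a = 0) :
    ∀ a < N, ∀ b < N, tpR C X (gs q b) * gs q a = 0 := by
  have htpr : ∀ (z : Cor C X) (k : ℕ), k ≤ N → (∀ a < N, tpR C X (q a) * z = 0) →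
      tpR C X (pr q k) * z = z := by
    intro z k hk hz
    induction k with
    | zero => rw [pr, tpR_one, one_mul]
    | succ k ih =>
      rw [pr, tpR_mul, map_sub, tpR_one, mul_assoc, ih (by omega), sub_mul, one_mul,
        hz k (by omega), sub_zero]
  have hty : ∀ m < N, ∀ n < N, tpR C X (gs q m) * q n = 0 := by
    intro m hm n hn
    rw [gs, tpR_mul, mul_assoc, htpr (q n) m hm.le fun a ha => ht n hn a ha, ht n hn m hm]
  intro n hn m hm
  have h1 : tpR C X (gs q m) * pr q n = tpR C X (gs q m) :=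
    mul_pr fun a ha => hty m hm a (by omega)
  rw [show gs q n = pr q n * q n from rfl, ← mul_assoc, h1, hty m hm n hn]

/-- Scholl's trick. -/
theorem scholl {N : ℕ} {e : ℕ → ℕ} {g : ℕ → Cor C X}
    (hg : ∀ i < N, ProjectsTo H X (e i) (g i)) (he : ∀ i < N, e i ≤ 2 * X.dim)
    (hs : ∀ i < N, ∀ j < N, e i + e j ≠ 2 * X.dim)
    (ho : ∀ i < N, ∀ j < N, g i * g j = if i = j then g i else 0)
    (ht : ∀ i < N, ∀ j < N, tpR C X (g j) * g i = 0) :
    ∃ P : ℕ → Cor C X, (∀ i < N, ProjectsTo H X (e i) (P i)) ∧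
      (∀ i < N, ∀ j < N, i ≠ j → P i * P j = 0) ∧
      (∀ i < N, ∀ j < N, tpR C X (P i) * P j = 0) ∧
      ∀ i < N, ∀ j < N, P i * tpR C X (P j) = 0 := by
  let G : Cor C X := ∑ n ∈ range N, g n
  have hGm : G ∈ cor0 C X := (cor0 C X).sum_mem fun n hn => (hg n (mem_range.1 hn)).deg
  have hgG : ∀ n < N, g n * G = g n := by
    intro n hn
    simp only [G]
    rw [mul_sum, sum_eq_single n]
    · rw [ho n hn n hn, if_pos rfl]
    · intro m hm hmn
      rw [ho n hn m (mem_range.1 hm), if_neg (Ne.symm hmn)]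
    · intro h
      exact absurd (mem_range.2 hn) h
  have htG : ∀ n < N, tpR C X G * g n = 0 := by
    intro n hn
    simp only [G]
    rw [map_sum, sum_mul]
    exact sum_eq_zero fun m hm => ht n hn m (mem_range.1 hm)
  have htGG : tpR C X G * G = 0 := by
    conv_lhs => enter [2]; simp only [G]
    rw [mul_sum]
    exact sum_eq_zero fun m hm => htG m (mem_range.1 hm)
  have htGt : ∀ n < N, tpR C X G * tpR C X (g n) = tpR C X (g n) := by
    intro n hn
    rw [← tpR_mul, hgG n hn]
  let P : ℕ → Cor C X := fun n => g n - (1 / 2 : ℚ) • (g n * tpR C X G)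
  have hP : ∀ n, P n = g n - (1 / 2 : ℚ) • (g n * tpR C X G) := fun _ => rfl
  have htP : ∀ n, tpR C X (P n) = tpR C X (g n) - (1 / 2 : ℚ) • (G * tpR C X (g n)) := by
    intro n
    rw [hP n, map_sub, tpR_smul, tpR_mul, tpR_tpR]
  have hPP : ∀ i < N, ∀ j < N, P i * P j = if i = j then P i else 0 := by
    intro i hi j hj
    have h1 : P i * P j = g i * g j - (1 / 2 : ℚ) • (g i * g j * tpR C X G) := by
      rw [hP i, hP j, sub_mul, smul_mul_assoc, mul_assoc (g i) (tpR C X G), mul_sub (tpR C X G),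
        mul_smul_comm, ← mul_assoc (tpR C X G) (g j), htG j hj, zero_mul, smul_zero, sub_zero,
        mul_zero, smul_zero, sub_zero, mul_sub, mul_smul_comm, mul_assoc]
    rw [h1, ho i hi j hj]
    split_ifs with h
    · rfl
    · rw [zero_mul, smul_zero, sub_zero]
  refine ⟨P, ?_, ?_, ?_, ?_⟩
  · intro i hi
    refine ⟨?_, ?_, ?_⟩
    · exact (cor0 C X).sub_mem (hg i hi).deg (Submodule.smul_mem (C.gr (X.prod X) X.dim) _
        ((cor0 C X).mul_mem (hg i hi).deg (tpR_mem hGm)))
    · have h := hPP i hi i hi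
      rw [if_pos rfl] at h
      exact h
    · intro m a ha
      change actH C X H (P i) a = _
      have h1 : actH C X H (g i * tpR C X G) a = 0 := by
        rw [map_mul]
        change actH C X H (g i) (actH C X H (tpR C X G) a) = 0
        simp only [G]
        rw [map_sum, map_sum, LinearMap.sum_apply, map_sum]
        apply sum_eq_zero
        intro j hj
        have hj' := mem_range.1 hj
        have h2 : actH C X H (tpR C X (g j)) a = if m = (2 * X.dim - e j : ℕ) then a else 0 :=
          ((hg j hj').tp (he j hj')).act m a ha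
        rw [h2]
        split_ifs with h3
        · rw [(hg i hi).actR _ ha, if_neg]
          intro h4
          have := hs i hi j hj'
          have := he j hj'
          omega
        · exact map_zero _
      rw [hP i, map_sub, LinearMap.sub_apply, Algebra.smul_def, map_mul, Module.End.mul_apply, h1,
        map_zero, sub_zero, (hg i hi).actR _ ha]
  · intro i hi j hj hij
    rw [hPP i hi j hj, if_neg hij]
  · intro i hi j hj
    rw [htP i, hP j, mul_sub, sub_mul, smul_mul_assoc, mul_assoc G, ht j hj i hi, mul_zero,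
      smul_zero, sub_zero, zero_sub, mul_smul_comm, ← mul_assoc, sub_mul, ht j hj i hi,
      smul_mul_assoc, mul_assoc G, ht j hj i hi, mul_zero, smul_zero, sub_zero, zero_mul,
      smul_zero, neg_zero]
  · intro i hi j hj
    have e1 : g i * G * tpR C X (g j) = g i * tpR C X (g j) := by rw [hgG i hi]
    have e2 : g i * tpR C X G * tpR C X (g j) = g i * tpR C X (g j) := by
      rw [mul_assoc, htGt j hj]
    have e3 : g i * tpR C X G * (G * tpR C X (g j)) = 0 := by
      rw [mul_assoc, ← mul_assoc (tpR C X G), htGG, zero_mul, mul_zero]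
    rw [hP i, htP j, sub_mul, mul_sub, mul_sub, mul_smul_comm, smul_mul_assoc, smul_mul_assoc,
      mul_smul_comm, e3, ← mul_assoc (g i) G, e1, e2, smul_zero, smul_zero, sub_zero]
    rw [sub_sub, ← add_smul]
    norm_num

/-- **Any order of the middle degrees.** -/
theorem exists_ck_of_order (hS : SplitPicard H X) (hM : HasPicardProjector H X) (hd : 2 ≤ X.dim)
    {N : ℕ} {e : ℕ → ℕ} {q : ℕ → C.A (X.prod X)} (h : OrderedProjectors H X N e q)
    (hall : ∀ n, 2 ≤ n → n + 2 ≤ 2 * X.dim → n ≠ X.dim → ∃ i < N, e i = n) :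
    ∃ π, IsCK H X π := by
  classical
  let q' : ℕ → Cor C X := q
  have hrr : ∀ a b, a < b → b < N → q' b * q' a = 0 := h.oneSided
  have hg := gs_labels (q := q') h.proj h.inj hrr
  have hgo : ∀ i < N, ∀ j < N, i ≠ j → gs q' i * gs q' j = 0 := by
    intro i hi j hj hij
    have h1 := gs_mul_gs (fun n hn => (h.proj n hn).idemR) hrr hi hj
    rw [if_neg hij] at h1
    exact h1
  have hch : ∀ n, ∃ i, (2 ≤ n → n + 2 ≤ 2 * X.dim → n ≠ X.dim → i < N ∧ e i = n) := by
    intro n
    by_cases h1 : 2 ≤ n ∧ n + 2 ≤ 2 * X.dim ∧ n ≠ X.dim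
    · obtain ⟨i, hi, hi'⟩ := hall n h1.1 h1.2.1 h1.2.2
      exact ⟨i, fun _ _ _ => ⟨hi, hi'⟩⟩
    · exact ⟨0, fun a b c => absurd ⟨a, b, c⟩ h1⟩
  choose ι hι using hch
  let p : ℕ → Cor C X := fun n => gs q' (ι n)
  apply exists_ck hS hM hd (q := p)
  · intro n h1 h2 h3
    obtain ⟨h4, h5⟩ := hι n h1 h2 h3
    have := hg (ι n) h4
    rw [h5] at this
    exact this
  · intro m n h1 h2 h3 h4 h5
    obtain ⟨h6, h7⟩ := hι m h1 (by omega) h4
    obtain ⟨h8, h9⟩ := hι n (by omega) h3 h5
    exact hgo (ι n) h8 (ι m) h6 fun h' => by rw [h', h7] at h9; omega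

/-- **Chow-Kunneth decompositions and ordered projectors.** -/
theorem ck_iff_order (hS : SplitPicard H X) (hM : HasPicardProjector H X) (hd : 2 ≤ X.dim) :
    (∃ π, IsCK H X π) ↔ ∃ (N : ℕ) (e : ℕ → ℕ) (q : ℕ → C.A (X.prod X)),
      OrderedProjectors H X N e q ∧
      ∀ n, 2 ≤ n → n + 2 ≤ 2 * X.dim → n ≠ X.dim → ∃ i < N, e i = n := by
  constructor
  · rintro ⟨π, h⟩
    refine ⟨2 * X.dim + 1, id, π, ⟨fun i hi => ?_, fun i _ j _ hij => hij, fun i _ =>
      ⟨h.deg i, h.idem i, fun m a ha => h.actH_eq i m ha⟩, fun i j hij _ => h.orth i j hij.ne⟩,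
      fun n _ h2 _ => ⟨n, by omega, rfl⟩⟩
    simp only [id]
    omega
  · rintro ⟨N, e, q, h1, h2⟩
    exact exists_ck_of_order hS hM hd h1 h2

/-- **Isotropic ordered projectors.** -/
theorem exists_selfDual_of_order (hS : SplitPicard H X) (hM : HasPicardProjector H X)
    (hd : 2 ≤ X.dim) {N : ℕ} {e : ℕ → ℕ} {q : ℕ → C.A (X.prod X)}
    (h : OrderedProjectors H X N e q) (hs : ∀ i < N, ∀ j < N, e i + e j ≠ 2 * X.dim)
    (ht : ∀ i < N, ∀ j < N, C.comp (q i) (tp C (q j)) = 0)
    (hall : ∀ n, 2 ≤ n → n < X.dim → ∃ i < N, e i = n ∨ e i + n = 2 * X.dim) :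
    MS.HasSelfDualCK H X := by
  classical
  let q' : ℕ → Cor C X := q
  have hrr : ∀ a b, a < b → b < N → q' b * q' a = 0 := h.oneSided
  have hg := gs_labels (q := q') h.proj h.inj hrr
  have hiso := gs_isotropic (q := q') (N := N) ht
  obtain ⟨P, hP, hPP, htP, hPt⟩ := scholl (g := gs q') hg h.le hs
    (fun i hi j hj => gs_mul_gs (fun n hn => (h.proj n hn).idemR) hrr hi hj) hiso
  have htt : ∀ i < N, ∀ j < N, i ≠ j → tpR C X (P i) * tpR C X (P j) = 0 := by
    intro i hi j hj hij
    rw [← tpR_mul, hPP j hj i hi (Ne.symm hij), map_zero]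
  have hch : ∀ n, ∃ (r : Cor C X), (2 ≤ n → n < X.dim → ProjectsTo H X n r ∧
      ∃ i < N, (e i = n ∧ r = P i) ∨ (e i + n = 2 * X.dim ∧ r = tpR C X (P i))) := by
    intro n
    by_cases h1 : 2 ≤ n ∧ n < X.dim
    · obtain ⟨i, hi, hi'⟩ := hall n h1.1 h1.2
      rcases hi' with hi' | hi'
      · have h2 := hP i hi
        rw [hi'] at h2
        exact ⟨P i, fun _ _ => ⟨h2, i, hi, Or.inl ⟨hi', rfl⟩⟩⟩
      · have h2 := (hP i hi).tp (h.le i hi)
        have h3 : 2 * X.dim - e i = n := by omega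
        rw [h3] at h2
        exact ⟨tpR C X (P i), fun _ _ => ⟨h2, i, hi, Or.inr ⟨hi', rfl⟩⟩⟩
    · exact ⟨0, fun a b => absurd ⟨a, b⟩ h1⟩
  choose r hr using hch
  apply exists_selfDual hS hM hd (q := r)
  · exact fun n h1 h2 => (hr n h1 h2).1
  · intro m n h1 h2 h3
    obtain ⟨-, i, hi, hi'⟩ := hr m h1 (by omega)
    obtain ⟨-, j, hj, hj'⟩ := hr n (by omega) h3
    change r n * r m = 0
    rcases hi' with ⟨h4, h5⟩ | ⟨h4, h5⟩
    · rcases hj' with ⟨h6, h7⟩ | ⟨h6, h7⟩
      · rw [h5, h7]
        exact hPP j hj i hi fun h' => by rw [h', h4] at h6; omega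
      · rw [h5, h7]
        exact htP j hj i hi
    · rcases hj' with ⟨h6, h7⟩ | ⟨h6, h7⟩
      · rw [h5, h7]
        exact hPt j hj i hi
      · rw [h5, h7]
        exact htt j hj i hi fun h' => by rw [h'] at h6; omega
  · intro m n h1 h2 h3 h4
    obtain ⟨-, i, hi, hi'⟩ := hr m h1 h2
    obtain ⟨-, j, hj, hj'⟩ := hr n h3 h4
    change tpR C X (r n) * r m = 0
    rcases hi' with ⟨h5, h6⟩ | ⟨h5, h6⟩
    · rcases hj' with ⟨h7, h8⟩ | ⟨h7, h8⟩
      · rw [h6, h8]
        exact htP j hj i hi
      · rw [h6, h8, tpR_tpR]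
        exact hPP j hj i hi fun h' => by rw [h', h5] at h7; omega
    · rcases hj' with ⟨h7, h8⟩ | ⟨h7, h8⟩
      · rw [h6, h8]
        exact htt j hj i hi fun h' => by rw [← h', h7] at h5; omega
      · rw [h6, h8, tpR_tpR]
        exact hPt j hj i hi

/-- **Self-dual decompositions and isotropic ordered projectors.** -/
theorem selfDual_iff_order (hS : SplitPicard H X) (hM : HasPicardProjector H X)
    (hd : 2 ≤ X.dim) :
    MS.HasSelfDualCK H X ↔ ∃ (N : ℕ) (e : ℕ → ℕ) (q : ℕ → C.A (X.prod X)),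
      OrderedProjectors H X N e q ∧ (∀ i < N, ∀ j < N, e i + e j ≠ 2 * X.dim) ∧
      (∀ i < N, ∀ j < N, C.comp (q i) (tp C (q j)) = 0) ∧
      ∀ n, 2 ≤ n → n < X.dim → ∃ i < N, e i = n ∨ e i + n = 2 * X.dim := by
  constructor
  · rintro ⟨π, h, hs⟩
    refine ⟨X.dim, id, π, ⟨fun i hi => ?_, fun i _ j _ hij => hij, fun i _ =>
      ⟨h.deg i, h.idem i, fun m a ha => h.actH_eq i m ha⟩, fun i j hij _ => h.orth i j hij.ne⟩,
      fun i hi j hj => ?_, fun i hi j hj => ?_, fun n _ h2 => ⟨n, h2, Or.inl rfl⟩⟩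
    · simp only [id]
      omega
    · simp only [id]
      omega
    · rw [hs j (by omega), h.orth _ _ (by omega)]
  · rintro ⟨N, e, q, h1, h2, h3, h4⟩
    exact exists_selfDual_of_order hS hM hd h1 h2 h3 h4

/-- **Threefolds**: Chow-Kunneth decompositions. -/
theorem ck_threefold (hS : SplitPicard H X) (hM : HasPicardProjector H X) (hd : X.dim = 3) :
    (∃ π, IsCK H X π) ↔ ∃ p q : C.A (X.prod X), ProjectsTo H X 2 p ∧ ProjectsTo H X 4 q ∧
      (C.comp p q = 0 ∨ C.comp q p = 0) := by
  constructor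
  · rintro ⟨π, h⟩
    exact ⟨π 2, π 4, ⟨h.deg 2, h.idem 2, fun m a ha => h.actH_eq 2 m ha⟩,
      ⟨h.deg 4, h.idem 4, fun m a ha => h.actH_eq 4 m ha⟩, Or.inl (h.orth 2 4 (by norm_num))⟩
  · rintro ⟨p, q, hp, hq, h | h⟩
    · refine exists_ck_of_order hS hM (by omega) (N := 2) (e := fun i => 2 * i + 2)
        (q := fun i => if i = 0 then p else q) ⟨?_, ?_, ?_, ?_⟩ ?_
      · intro i hi; omega
      · intro i _ j _ hij; omega
      · intro i hi
        interval_cases i
        · exact hp
        · exact hq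
      · intro i j hij hj
        have h1 : i = 0 := by omega
        have h2 : j = 1 := by omega
        subst h1; subst h2
        exact h
      · intro n h1 h2 h3
        have h4 : n = 2 ∨ n = 4 := by omega
        rcases h4 with rfl | rfl
        · exact ⟨0, by norm_num, rfl⟩
        · exact ⟨1, by norm_num, rfl⟩
    · refine exists_ck_of_order hS hM (by omega) (N := 2) (e := fun i => 4 - 2 * i)
        (q := fun i => if i = 0 then q else p) ⟨?_, ?_, ?_, ?_⟩ ?_
      · intro i hi; omega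
      · intro i _ j _ hij; omega
      · intro i hi
        interval_cases i
        · exact hq
        · exact hp
      · intro i j hij hj
        have h1 : i = 0 := by omega
        have h2 : j = 1 := by omega
        subst h1; subst h2
        exact h
      · intro n h1 h2 h3
        have h4 : n = 2 ∨ n = 4 := by omega
        rcases h4 with rfl | rfl
        · exact ⟨1, by norm_num, rfl⟩
        · exact ⟨0, by norm_num, rfl⟩

/-- **Threefolds**: self-dual Chow-Kunneth decompositions. -/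
theorem selfDual_threefold (hS : SplitPicard H X) (hM : HasPicardProjector H X)
    (hd : X.dim = 3) :
    MS.HasSelfDualCK H X ↔ ∃ q : C.A (X.prod X), ProjectsTo H X 2 q ∧
      (C.comp q (tp C q) = 0 ∨ C.comp (tp C q) q = 0) := by
  constructor
  · rintro ⟨π, h, hs⟩
    refine ⟨π 2, ⟨h.deg 2, h.idem 2, fun m a ha => h.actH_eq 2 m ha⟩, Or.inl ?_⟩
    rw [hs 2 (by omega), h.orth _ _ (by omega)]
  · rintro ⟨q, hq, h | h⟩
    · refine exists_selfDual_of_order hS hM (by omega) (N := 1) (e := fun _ => 2)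
        (q := fun _ => q) ⟨?_, ?_, ?_, ?_⟩ ?_ ?_ ?_
      · intro i hi; omega
      · intro i hi j hj _; omega
      · intro i hi; exact hq
      · intro i j hij hj; omega
      · intro i hi j hj; omega
      · intro i hi j hj; exact h
      · intro n h1 h2
        exact ⟨0, by norm_num, Or.inl (by omega)⟩
    · have hq' := hq.tp (by omega)
      have e1 : 2 * X.dim - 2 = 4 := by omega
      rw [e1] at hq'
      refine exists_selfDual_of_order hS hM (by omega) (N := 1) (e := fun _ => 4)
        (q := fun _ => tp C q) ⟨?_, ?_, ?_, ?_⟩ ?_ ?_ ?_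
      · intro i hi; omega
      · intro i hi j hj _; omega
      · intro i hi; exact hq'
      · intro i j hij hj; omega
      · intro i hi j hj; omega
      · intro i hi j hj; rw [tp_tp]; exact h
      · intro n h1 h2
        exact ⟨0, by norm_num, Or.inr (by omega)⟩

end Pool.Agent.Q28.EN
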